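import Pool.Agent.L5helper6.AD.Fin
import Pool.Agent.H295R2.T2

/-!
# Zero-free half-planes and averages in additive problems with primes

Let `w ≥ 0` be any weight on the natural numbers, not identically zero and of subexponential growth
(`w n = O(exp(n ^ ε))` for all `ε > 0`), for example the indicator function of an arbitrary nonempty
set `B`, however sparse: squares, powers of two, ... .  Consider the average `A w f N` of the additive
convolution of `w` with `f`, where `f` is the von Mangoldt function minus one, the Moebius function or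
the Liouville function; for the first one and the set `B` this is the error term in the average number
of representations of `n ≤ N` as the sum of a prime and an element of `B`.  The trivial bound is
`N W(N)`, `W(N) = ∑_{n ≤ N} w n`.

The exponent of these averages is the same for all weights: there is a power saving, from above or
from below, if and only if zeta has a zero-free half-plane, and zeta has no zero with real part greater
than `θ` if and only if the average is `O(N ^ (θ + ε) W(N))`, if and only if this is true from above,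
if and only if it is true from below.  Unconditionally the averages with `Λ - 1` and `μ` have
oscillations of both signs of size `N ^ (1/2 - δ) W(N)`.

The same is true for the two-sided estimate of the average number of representations as
`a p + b q`, `p` and `q` primes, for all positive integers `a` and `b`; the case `a = b = 1` is known
(Granville; Bhowmik and Ruzsa).

Proof. For `r = e ^ (-t)` the power series of the summatory function of the convolution is `F(r)` times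
the power series of `W`.  The latter is positive, so that it can be divided out: a one-sided bound for
the average gives the bound `F(e ^ (-t)) ≤ K t ^ (-κ)` for the power series of `f`; here the part
`n > t ^ (-1-ε)` of the series is negligible, because `W` has subexponential growth.  Landau's
theorem for the Mellin transform of `F(e ^ (-t))`, which is `Γ(s)` times the Dirichlet series of `f`,
then gives the analytic continuation of this Dirichlet series to `Re s > κ`.  For `a p + b q` let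
`u(t) = t ∑ Λ(n) e ^ (-n t)`.  One gets `u(a t) u(b t) = 1 + O(t ^ η)`; with `v = log u` this is
`v(s) + v(c s) = O(s ^ η)`, `c = a / b`, and since `v` tends to zero at zero by the prime number
theorem, `v(s) = O(s ^ η)` by iteration.
-/

set_option autoImplicit false

open Finset

namespace Pool.Agent.Results.MP_5a4862_nt.AdditiveAverages

/-- zeta has a zero-free half-plane -/
def HalfPlane : Prop := ∃ σ₀ : ℝ, 1 / 2 < σ₀ ∧ σ₀ < 1 ∧ ∀ s : ℂ, σ₀ ≤ s.re → riemannZeta s ≠ 0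

/-- zeta has no zero with real part greater than `θ` -/
def ZeroFree (θ : ℝ) : Prop := ∀ s : ℂ, θ < s.re → riemannZeta s ≠ 0

/-- a weight: nonnegative, not identically zero, of subexponential growth -/
def IsWeight (w : ℕ → ℝ) : Prop :=
  (∀ n, 0 ≤ w n) ∧ (∃ n, w n ≠ 0) ∧ ∀ ε : ℝ, 0 < ε → ∃ C : ℝ, ∀ n : ℕ, w n ≤ C * Real.exp ((n : ℝ) ^ ε)

/-- the total mass of the weight up to `N` -/
def W (w : ℕ → ℝ) (N : ℕ) : ℝ := ∑ n ∈ range (N + 1), w n

/-- `∑_{n ≤ N} ∑_{k + m = n} w(k) f(m)` -/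
def A (w f : ℕ → ℝ) (N : ℕ) : ℝ :=
  ∑ n ∈ range (N + 1), ∑ p ∈ HasAntidiagonal.antidiagonal n, w p.1 * f p.2

/-- `Λ(n) - 1` for `n ≥ 1`, zero at zero -/
noncomputable def mangoldtSubOne (n : ℕ) : ℝ := if n = 0 then 0 else ArithmeticFunction.vonMangoldt n - 1

/-- the Moebius function -/
def moebius (n : ℕ) : ℝ := (ArithmeticFunction.moebius n : ℝ)

/-- the Liouville function, zero at zero -/
def liouville (n : ℕ) : ℝ := (ArithmeticFunction.liouville n : ℝ)

/-- `∑ Λ(m) Λ(l)` over `m, l` with `a m + b l ≤ N` -/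
noncomputable def G (a b N : ℕ) : ℝ :=
  ∑ m ∈ range (N + 1), ∑ l ∈ range (N + 1),
    if a * m + b * l ≤ N then ArithmeticFunction.vonMangoldt m * ArithmeticFunction.vonMangoldt l else 0

open Pool.Agent.L5helper6.AD in
lemma good {f : ℕ → ℝ} (hf : f = mangoldtSubOne ∨ f = moebius ∨ f = liouville) : Good f := by
  rcases hf with h | h | h
  · rw [h]
    exact good_fL
  · rw [h]
    exact good_fM
  · have : liouville = fO := by
      funext n
      rw [fO_eq]
      rfl
    rw [h, this]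
    exact good_fO

lemma sign_ne {c : ℝ} (hc : c = 1 ∨ c = -1) : c ≠ 0 := by rcases hc with h | h <;> rw [h] <;> norm_num

lemma sign_le {c x : ℝ} (hc : c = 1 ∨ c = -1) : c * x ≤ |x| := by
  rcases hc with h | h
  · rw [h, one_mul]
    exact le_abs_self x
  · rw [h, neg_one_mul]
    exact neg_le_abs x

lemma half_of_zf {θ : ℝ} (h1 : 1 / 2 ≤ θ) (h2 : θ < 1) (h : ZeroFree θ) : HalfPlane :=
  ⟨(θ + 1) / 2, by linarith, by linarith, fun s hs => h s (by linarith)⟩

lemma mono {w f : ℕ → ℝ} {c C α β : ℝ} (h0 : ∀ n, 0 ≤ w n) (hαβ : α ≤ β)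
    (h : ∀ N : ℕ, c * A w f N ≤ C * ((N : ℝ) + 1) ^ α * W w N) (N : ℕ) :
    c * A w f N ≤ max C 0 * ((N : ℝ) + 1) ^ β * W w N := by
  have hW : 0 ≤ W w N := Finset.sum_nonneg fun n _ => h0 n
  have hN : (1:ℝ) ≤ (N : ℝ) + 1 := by linarith [Nat.cast_nonneg (α := ℝ) N]
  have h1 : ((N : ℝ) + 1) ^ α ≤ ((N : ℝ) + 1) ^ β := Real.rpow_le_rpow_of_exponent_le hN hαβ
  refine (h N).trans (mul_le_mul_of_nonneg_right ?_ hW)
  calc C * ((N : ℝ) + 1) ^ α ≤ max C 0 * ((N : ℝ) + 1) ^ α :=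
        mul_le_mul_of_nonneg_right (le_max_left _ _) (by positivity)
    _ ≤ _ := mul_le_mul_of_nonneg_left h1 (le_max_right _ _)

open Pool.Agent.L5helper6.AD in
/-- one-sided bounds give zero-free half-planes -/
lemma back {w f : ℕ → ℝ} (hw : IsWeight w) (hf : f = mangoldtSubOne ∨ f = moebius ∨ f = liouville) {c θ : ℝ}
    (hc : c = 1 ∨ c = -1) (h1 : 1 / 2 ≤ θ) (h2 : θ < 1)
    (h : ∀ ε : ℝ, 0 < ε → ∃ C : ℝ, ∀ N : ℕ, c * A w f N ≤ C * ((N : ℝ) + 1) ^ (θ + ε) * W w N) : ZeroFree θ :=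
  (good hf).conv hw.1 hw.2.1 (sub_cum hw.1 hw.2.2) h1 h2 (sign_ne hc) h

/-- **Additive averages and zero-free half-planes.** -/
theorem result :
    (∀ (w f : ℕ → ℝ) (c : ℝ), IsWeight w → (f = mangoldtSubOne ∨ f = moebius ∨ f = liouville) →
      (c = 1 ∨ c = -1) →
      (HalfPlane ↔ ∃ δ : ℝ, 0 < δ ∧ ∃ C : ℝ, ∀ N : ℕ, c * A w f N ≤ C * ((N : ℝ) + 1) ^ (1 - δ) * W w N) ∧
      ∀ θ : ℝ, 1 / 2 ≤ θ → θ < 1 →
        (ZeroFree θ ↔ ∀ ε : ℝ, 0 < ε → ∃ C : ℝ, ∀ N : ℕ, |A w f N| ≤ C * ((N : ℝ) + 1) ^ (θ + ε) * W w N) ∧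
        (ZeroFree θ ↔ ∀ ε : ℝ, 0 < ε → ∃ C : ℝ, ∀ N : ℕ, c * A w f N ≤ C * ((N : ℝ) + 1) ^ (θ + ε) * W w N)) ∧
    (∀ (w f : ℕ → ℝ) (c δ C : ℝ), IsWeight w → (f = mangoldtSubOne ∨ f = moebius) → (c = 1 ∨ c = -1) → 0 < δ →
      ∃ N : ℕ, C * ((N : ℝ) + 1) ^ (1 / 2 - δ) * W w N < c * A w f N) ∧
    (∀ a b : ℕ, 1 ≤ a → 1 ≤ b →
      (HalfPlane ↔ ∃ δ : ℝ, 0 < δ ∧ ∃ C : ℝ, ∀ N : ℕ,
        |G a b N - (N : ℝ) ^ 2 / (2 * a * b)| ≤ C * ((N : ℝ) + 1) ^ (2 - δ)) ∧
      ∀ θ : ℝ, 1 / 2 ≤ θ → θ < 1 → (ZeroFree θ ↔ ∀ ε : ℝ, 0 < ε → ∃ C : ℝ, ∀ N : ℕ,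
        |G a b N - (N : ℝ) ^ 2 / (2 * a * b)| ≤ C * ((N : ℝ) + 1) ^ (1 + θ + ε))) := by
  have key : ∀ (w f : ℕ → ℝ) (c : ℝ), IsWeight w → (f = mangoldtSubOne ∨ f = moebius ∨ f = liouville) →
      (c = 1 ∨ c = -1) → ∀ θ : ℝ, 1 / 2 ≤ θ → θ < 1 →
        (ZeroFree θ ↔ ∀ ε : ℝ, 0 < ε → ∃ C : ℝ, ∀ N : ℕ, |A w f N| ≤ C * ((N : ℝ) + 1) ^ (θ + ε) * W w N) ∧
        (ZeroFree θ ↔ ∀ ε : ℝ, 0 < ε → ∃ C : ℝ, ∀ N : ℕ, c * A w f N ≤ C * ((N : ℝ) + 1) ^ (θ + ε) * W w N) := by
    intro w f c hw hf hc θ h1 h2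
    have hup : ZeroFree θ → ∀ ε : ℝ, 0 < ε → ∃ C : ℝ, ∀ N : ℕ, |A w f N| ≤ C * ((N : ℝ) + 1) ^ (θ + ε) * W w N :=
      fun hz ε hε => (good hf).fwd hw.1 h1 h2 hz hε
    have hto : (∀ ε : ℝ, 0 < ε → ∃ C : ℝ, ∀ N : ℕ, |A w f N| ≤ C * ((N : ℝ) + 1) ^ (θ + ε) * W w N) →
        ∀ ε : ℝ, 0 < ε → ∃ C : ℝ, ∀ N : ℕ, c * A w f N ≤ C * ((N : ℝ) + 1) ^ (θ + ε) * W w N := by
      intro h ε hε
      obtain ⟨C, hC⟩ := h ε hε
      exact ⟨C, fun N => (sign_le hc).trans (hC N)⟩
    exact ⟨⟨hup, fun h => back hw hf hc h1 h2 (hto h)⟩, ⟨fun hz => hto (hup hz), back hw hf hc h1 h2⟩⟩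
  have keyG : ∀ a b : ℕ, 1 ≤ a → 1 ≤ b → ∀ θ : ℝ, 1 / 2 ≤ θ → θ < 1 →
      (ZeroFree θ ↔ ∀ ε : ℝ, 0 < ε → ∃ C : ℝ, ∀ N : ℕ,
        |G a b N - (N : ℝ) ^ 2 / (2 * a * b)| ≤ C * ((N : ℝ) + 1) ^ (1 + θ + ε)) := by
    intro a b ha hb θ h1 h2
    constructor
    · intro hz ε hε
      obtain ⟨C, hC⟩ := Pool.Agent.L5helper6.AD.bin_fwd ha hb h1 hz (κ := min (θ + ε) 1)
        (lt_min (by linarith) h2) (min_le_right _ _)
      have hC0 : 0 ≤ C := by
        have := (abs_nonneg _).trans (hC 0)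
        simpa using this
      refine ⟨C, fun N => (hC N).trans (mul_le_mul_of_nonneg_left ?_ hC0)⟩
      refine Real.rpow_le_rpow_of_exponent_le (by linarith [Nat.cast_nonneg (α := ℝ) N]) ?_
      linarith [min_le_left (θ + ε) 1]
    · intro h
      refine Pool.Agent.L5helper6.AD.zf_of_lt h2 fun κ h3 h4 => ?_
      obtain ⟨C, hC⟩ := h (κ - θ) (by linarith)
      refine Pool.Agent.L5helper6.AD.bin_conv ha hb (by linarith) h4 (C := C) fun N => ?_
      have := hC N
      rw [show 1 + θ + (κ - θ) = 1 + κ by ring] at this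
      exact this
  refine ⟨fun w f c hw hf hc => ⟨?_, key w f c hw hf hc⟩, ?_, fun a b ha hb => ⟨?_, keyG a b ha hb⟩⟩
  · constructor
    · rintro ⟨σ₀, h1, h2, h3⟩
      have hz : ZeroFree σ₀ := fun s hs => h3 s hs.le
      obtain ⟨C, hC⟩ := ((key w f c hw hf hc σ₀ h1.le h2).2.1 hz) ((1 - σ₀) / 2) (by linarith)
      refine ⟨(1 - σ₀) / 2, by linarith, C, fun N => ?_⟩
      have := hC N
      rw [show σ₀ + (1 - σ₀) / 2 = 1 - (1 - σ₀) / 2 by ring] at this
      exact this
    · rintro ⟨δ, hδ, C, hC⟩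
      have h1 : (1:ℝ) / 2 ≤ max (1 - δ) (1 / 2) := le_max_right _ _
      have h2 : max (1 - δ) (1 / 2) < 1 := max_lt (by linarith) (by norm_num)
      refine half_of_zf h1 h2 ((key w f c hw hf hc _ h1 h2).2.2 fun ε hε => ⟨max C 0, ?_⟩)
      exact mono hw.1 (by linarith [le_max_left (1 - δ) (1 / 2)]) hC
  · intro w f c δ C hw hf hc hδ
    by_contra hcon
    push Not at hcon
    set θ : ℝ := max (1 / 2 - δ) (1 / 4) with hθ
    have h1 : (1:ℝ) / 4 ≤ θ := le_max_right _ _
    have h2 : θ < 1 / 2 := max_lt (by linarith) (by norm_num)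
    obtain ⟨κ, h3, h4⟩ := exists_between h2
    have hf' : f = mangoldtSubOne ∨ f = moebius ∨ f = liouville := by
      rcases hf with h | h
      · exact Or.inl h
      · exact Or.inr (Or.inl h)
    have hm := mono (w := w) (f := f) (c := c) (C := C) (β := θ) hw.1 (le_max_left _ _) hcon
    obtain ⟨K, hK⟩ := Pool.Agent.L5helper6.AD.abel hw.1 hw.2.1 (Pool.Agent.L5helper6.AD.sub_cum hw.1 hw.2.2)
      ((good hf').sub.smul c) (θ := θ) (κ := κ) (C := max C 0) (by linarith) (by linarith) h3 (fun N => by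
        rw [Pool.Agent.L5helper6.AD.conv_smul]
        exact hm N)
    have hz : Pool.Agent.L5helper6.AD.ZF κ := by
      have hK' : ∀ t : ℝ, 0 < t → t ≤ 1 → c * Pool.Agent.L5helper6.AD.P f t ≤ K * t ^ (-κ) := by
        intro t ht ht1
        have := hK t ht ht1
        rwa [Pool.Agent.L5helper6.AD.P_smul] at this
      rcases hf with h | h
      · rw [h] at hK'
        exact Pool.Agent.L5helper6.AD.zf_fL (by linarith) (by linarith) (sign_ne hc) hK'
      · rw [h] at hK'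
        exact Pool.Agent.L5helper6.AD.zf_fM (by linarith) (by linarith) (sign_ne hc) hK'
    have := Pool.Agent.H295R2.T2 (θ := κ) fun s hs h0 => by
      by_cases h1 : s = 1
      · rw [h1, Pool.Agent.L5helper6.AD.Zs_one] at h0
        exact one_ne_zero h0
      · rw [← Pool.Agent.H295R2.Zs_eq h1] at h0
        rcases mul_eq_zero.1 h0 with h | h
        · exact h1 (by linear_combination h)
        · exact hz s hs h
    linarith
  · constructor
    · rintro ⟨σ₀, h1, h2, h3⟩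
      have hz : ZeroFree σ₀ := fun s hs => h3 s hs.le
      obtain ⟨C, hC⟩ := ((keyG a b ha hb σ₀ h1.le h2).1 hz) ((1 - σ₀) / 2) (by linarith)
      refine ⟨(1 - σ₀) / 2, by linarith, C, fun N => ?_⟩
      have := hC N
      rw [show 1 + σ₀ + (1 - σ₀) / 2 = 2 - (1 - σ₀) / 2 by ring] at this
      exact this
    · rintro ⟨δ, hδ, C, hC⟩
      have h1 : (1:ℝ) / 2 ≤ max (1 - δ) (1 / 2) := le_max_right _ _
      have h2 : max (1 - δ) (1 / 2) < 1 := max_lt (by linarith) (by norm_num)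
      have hC0 : 0 ≤ C := by
        have := (abs_nonneg _).trans (hC 0)
        simpa using this
      refine half_of_zf h1 h2 ((keyG a b ha hb _ h1 h2).2 fun ε hε => ⟨C, fun N => ?_⟩)
      refine (hC N).trans (mul_le_mul_of_nonneg_left ?_ hC0)
      refine Real.rpow_le_rpow_of_exponent_le (by linarith [Nat.cast_nonneg (α := ℝ) N]) ?_
      linarith [le_max_left (1 - δ) (1 / 2)]

end Pool.Agent.Results.MP_5a4862_nt.AdditiveAverages
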