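import Pool.Agent.L5helper77.Cheb8
import Pool.Agent.L5helper77.Cheb9

/-!
# The strength of Chebyshev's method and zero-free half-planes

For real `a_1, …, a_K` let `F(y) = ∑_{k ≤ K} a_k ⌊y / k⌋`.  Chebyshev's method deduces from `F ≤ 1` and
`∑ a_k / k = 0` the inequality `ψ(x) ≥ (V - o(1)) x` with `V = -∑ a_k log k / k`.  Let `Θ` be the
supremum of the real parts of the zeros of zeta.

* The least distance `D K` of the constant `1` from the functions `F` of level `K` in the norm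
  `∫_1^∞ |1 - F(y)| dy / y²` (the norm of `L¹(0, 1)` in the variable `1 / y`) is `K ^ (Θ - 1 + o(1))`.
* The least defect `1 - V` of Chebyshev's method at level `K` lies between `K ^ (Θ - 1 - o(1))` and
  `K ^ ((Θ - 1) / 4 + o(1))`.
* Hence zeta has a zero-free half-plane if and only if the distance, or the defect, has a power saving
  in the level.
* A single `F` of large level `K` with distance at most `(K + 1) ^ (-δ)` excludes the zeros with
  `Re ρ ≥ max (1/2) (1 - δ / 18)` and `1 ≤ |Im ρ| ≤ (K + 1) ^ (δ / 6)`.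

Proof.  If `ζ(ρ) = 0` then `(s - 1)(1 - ζ(s) ∑ a_k k^{-s})` does not vanish at `ρ`; on the right of the
line `Re s = 1` it is bounded by the distance (Mellin transform), and far on the left by a power of
`K`, because a small distance forces the coefficients to be polynomially bounded.  The three lines
theorem in wider and wider strips gives the exponent `Θ - 1`.  In the other direction one takes the
Moebius function, corrected at `K`; for the one-sided approximation this function of level `N` is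
corrected by nonnegative functions `⌊y / m⌋ - B ⌊y / (m B)⌋` of level at most `N ^ 4`, which detect the
integers that are not close to a multiple of all the numbers up to `N`.
-/

set_option autoImplicit false

open Filter Topology MeasureTheory Set

namespace Pool.Agent.Results.MP_5a4862_nt.ChebyshevMethod

/-- `F(y) = ∑_{k ≤ K} a_k ⌊y / k⌋` -/
noncomputable def F (K : ℕ) (a : ℕ → ℝ) (y : ℝ) : ℝ :=
  ∑ k ∈ Finset.Icc 1 K, a k * (⌊y / k⌋₊ : ℝ)

/-- The distance `∫_1^∞ |1 - F(y)| dy / y²`, possibly infinite. -/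
noncomputable def dist (K : ℕ) (a : ℕ → ℝ) : ENNReal :=
  ∫⁻ y in Ioi (1 : ℝ), ENNReal.ofReal (|1 - F K a y| / y ^ 2)

/-- The least distance at level `K` (it is at most `1`, so this is the value of the infimum). -/
noncomputable def D (K : ℕ) : ℝ := (⨅ a : ℕ → ℝ, dist K a).toReal

/-- `F` is admissible for Chebyshev's method: `∑_{k ≤ K} a_k / k = 0` and `F(y) ≤ 1` for all `y ≥ 0`. -/
def IsMinorant (K : ℕ) (a : ℕ → ℝ) : Prop :=
  ∑ k ∈ Finset.Icc 1 K, a k / k = 0 ∧ ∀ y : ℝ, 0 ≤ y → F K a y ≤ 1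

/-- The constant `V = -∑_{k ≤ K} a_k log k / k` of Chebyshev's method. -/
noncomputable def V (K : ℕ) (a : ℕ → ℝ) : ℝ := -∑ k ∈ Finset.Icc 1 K, a k * (Real.log k / k)

/-- The least defect `1 - V` of Chebyshev's method at level `K`. -/
noncomputable def defect (K : ℕ) : ℝ := sInf {x : ℝ | ∃ a : ℕ → ℝ, IsMinorant K a ∧ x = 1 - V K a}

/-- The supremum of the real parts of the zeros of zeta. -/
noncomputable def Theta : ℝ := sSup {x : ℝ | ∃ s : ℂ, riemannZeta s = 0 ∧ s.re = x}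

/-- Zeta has a zero-free half-plane (the statement of the question). -/
def HalfPlane : Prop := ∃ σ₀ : ℝ, 1 / 2 < σ₀ ∧ σ₀ < 1 ∧ ∀ s : ℂ, σ₀ ≤ s.re → riemannZeta s ≠ 0

lemma mino_iff (K : ℕ) (a : ℕ → ℝ) : IsMinorant K a ↔ Pool.Agent.L5helper77.Cheb.Mino K a := by
  constructor
  · rintro ⟨h1, h2⟩
    exact ⟨h1, fun n => h2 n (Nat.cast_nonneg n)⟩
  · rintro ⟨h1, h2⟩
    refine ⟨h1, fun y _ => ?_⟩
    have h3 := Pool.Agent.L5helper77.Cheb.Fl_floor K a y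
    have h4 := h2 ⌊y⌋₊
    rw [← h3] at h4
    exact h4

lemma defect_eq (K : ℕ) : defect K = Pool.Agent.L5helper77.Cheb.QQ K := by
  unfold defect Pool.Agent.L5helper77.Cheb.QQ
  simp only [mino_iff]
  rfl

/-- **Chebyshev's method and zero-free half-planes.** -/
theorem result :
    -- the exponent of the distance is `Θ - 1`
    Tendsto (fun K : ℕ => Real.log (D K) / Real.log K) atTop (𝓝 (Theta - 1)) ∧
    -- the defect of Chebyshev's method
    (∀ ε : ℝ, 0 < ε → ∀ᶠ K : ℕ in atTop,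
      (K : ℝ) ^ (Theta - 1 - ε) ≤ defect K ∧ defect K ≤ (K : ℝ) ^ ((Theta - 1) / 4 + ε)) ∧
    -- for minorants the distance is the defect
    (∀ (K : ℕ) (a : ℕ → ℝ), IsMinorant K a → 0 ≤ 1 - V K a ∧ dist K a = ENNReal.ofReal (1 - V K a)) ∧
    -- one zero bounds all distances from below
    (∀ ρ : ℂ, riemannZeta ρ = 0 → 0 ≤ ρ.re → ∀ ε : ℝ, 0 < ε → ∃ c : ℝ, 0 < c ∧
      ∀ K : ℕ, 1 ≤ K → ∀ a : ℕ → ℝ,
        ENNReal.ofReal (c * ((K : ℝ) + 1) ^ (-(1 - ρ.re) - ε)) ≤ dist K a) ∧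
    -- the same, uniformly in the zero and in the level
    (∃ c : ℝ, 0 < c ∧ ∀ ρ : ℂ, riemannZeta ρ = 0 → 1 / 2 ≤ ρ.re → 1 ≤ |ρ.im| →
      ∀ K : ℕ, 1 ≤ K → ∀ a : ℕ → ℝ,
        ENNReal.ofReal (c * |ρ.im| ^ (-3 : ℝ) * ((K : ℝ) + 1) ^ (-(9 / 2 * (1 - ρ.re)))) ≤ dist K a) ∧
    -- one level excludes the zeros of a rectangle
    (∀ δ : ℝ, 0 < δ → ∃ K₀ : ℕ, ∀ K : ℕ, K₀ ≤ K → ∀ a : ℕ → ℝ,
      dist K a ≤ ENNReal.ofReal (((K : ℝ) + 1) ^ (-δ)) → ∀ ρ : ℂ, riemannZeta ρ = 0 → 1 ≤ |ρ.im| →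
        |ρ.im| ≤ ((K : ℝ) + 1) ^ (δ / 6) → ρ.re < max (1 / 2) (1 - δ / 18)) ∧
    -- the equivalences
    1 / 2 ≤ Theta ∧ Theta ≤ 1 ∧ (HalfPlane ↔ Theta < 1) ∧
    (HalfPlane ↔ ∃ δ : ℝ, 0 < δ ∧ ∃ C : ℝ, ∀ K : ℕ, 1 ≤ K → D K ≤ C * (K : ℝ) ^ (-δ)) ∧
    (HalfPlane ↔ ∃ δ : ℝ, 0 < δ ∧ ∃ C : ℝ, ∃ᶠ K : ℕ in atTop, D K ≤ C * (K : ℝ) ^ (-δ)) ∧
    (HalfPlane ↔ ∃ δ : ℝ, 0 < δ ∧ ∃ C : ℝ, ∀ K : ℕ, 1 ≤ K →
      ∃ a : ℕ → ℝ, IsMinorant K a ∧ 1 - C * (K : ℝ) ^ (-δ) ≤ V K a) := by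
  have hhp : HalfPlane ↔ Pool.Agent.L5helper77.Cheb.HP := Iff.rfl
  have hfr : ∀ δ C : ℝ, (∀ K : ℕ, 1 ≤ K → D K ≤ C * (K : ℝ) ^ (-δ)) →
      ∃ᶠ K : ℕ in atTop, D K ≤ C * (K : ℝ) ^ (-δ) := by
    intro δ C h
    apply Eventually.frequently
    filter_upwards [eventually_ge_atTop 1] with K hK using h K hK
  refine ⟨Pool.Agent.L5helper77.Cheb.DD_limit, ?_, ?_, ?_, Pool.Agent.L5helper77.Cheb.lower_unif,
    fun δ hδ => Pool.Agent.L5helper77.Cheb.certificate hδ, Pool.Agent.L5helper77.Cheb.th_half,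
    Pool.Agent.L5helper77.Cheb.th_one, Pool.Agent.L5helper77.Cheb.hp_iff, ?_, ?_, ?_⟩
  · intro ε hε
    filter_upwards [Pool.Agent.L5helper77.Cheb.DD_lower hε, Pool.Agent.L5helper77.Cheb.QQ_upper hε]
      with K h1 h2
    rw [defect_eq]
    exact ⟨h1.trans (Pool.Agent.L5helper77.Cheb.DD_le_QQ K), h2⟩
  · intro K a h
    have h1 := (mino_iff K a).1 h
    have h2 := Pool.Agent.L5helper77.Cheb.dist_eq_const K a h1.1 h1.2
    have e : 1 - V K a = 1 + ∑ k ∈ Finset.Icc 1 K, a k * (Real.log k / k) := by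
      unfold V; ring
    have h3 := Pool.Agent.L5helper77.Cheb.mino_ge h1
    have h4 : 0 ≤ 1 - V K a := le_trans ENNReal.toReal_nonneg h3
    refine ⟨h4, ?_⟩
    rw [e]
    exact h2
  · intro ρ h1 h2 ε hε
    obtain ⟨c, hc, _, h⟩ := Pool.Agent.L5helper77.Cheb.lower h1 h2 hε
    exact ⟨c, hc, h⟩
  · constructor
    · exact fun h => Pool.Agent.L5helper77.Cheb.DD_of_hp h
    · rintro ⟨δ, hδ, C, h⟩
      exact Pool.Agent.L5helper77.Cheb.hp_of_DD hδ (hfr δ C h)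
  · constructor
    · intro h
      obtain ⟨δ, hδ, C, h1⟩ := Pool.Agent.L5helper77.Cheb.DD_of_hp h
      exact ⟨δ, hδ, C, hfr δ C h1⟩
    · rintro ⟨δ, hδ, C, h⟩
      exact Pool.Agent.L5helper77.Cheb.hp_of_DD hδ h
  · constructor
    · intro h
      obtain ⟨δ, hδ, C, h1⟩ := Pool.Agent.L5helper77.Cheb.QQ_of_hp h
      refine ⟨δ, hδ, C, fun K hK => ?_⟩
      obtain ⟨a, ha, ha2⟩ := h1 K hK
      exact ⟨a, (mino_iff K a).2 ha, ha2⟩
    · rintro ⟨δ, hδ, C, h⟩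
      refine Pool.Agent.L5helper77.Cheb.hp_of_DD hδ (hfr δ C fun K hK => ?_)
      obtain ⟨a, ha, ha2⟩ := h K hK
      have h1 := Pool.Agent.L5helper77.Cheb.mino_ge ((mino_iff K a).1 ha)
      have h2 : D K ≤ 1 - V K a := h1
      linarith

end Pool.Agent.Results.MP_5a4862_nt.ChebyshevMethod
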