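import Pool.Agent.Y24.F2

/-!
# Zero density near the critical line: every exponent below `4/3`

For every `c < 4/3` there is a constant `C` such that for all `1/2 ≤ σ ≤ 1` and all `T ≥ 2`
`N(σ, T) ≤ C T ^ (1 - c (σ - 1/2)) log T`, and the exponential mean of the distances of the zeros
from the critical line satisfies `∑_{0 < γ ≤ T, β ≥ 1/2} T ^ (c (β - 1/2)) ≤ C T log T`.

The theorem is due to the library `Pool.Agent.Y24` (starting files, never handed in before).
-/

set_option autoImplicit false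

open Finset

namespace Pool.Agent.Results.MP_5a4862_nt.DensityNearCriticalLine

/-- the zeros `ρ` of `ζ` with `Re ρ ≥ σ` and `0 < Im ρ ≤ T` -/
def zeros (σ T : ℝ) : Set ℂ := {ρ : ℂ | riemannZeta ρ = 0 ∧ σ ≤ ρ.re ∧ 0 < ρ.im ∧ ρ.im ≤ T}

/-- the multiplicity of a zero -/
noncomputable def mult (ρ : ℂ) : ℕ := analyticOrderNatAt riemannZeta ρ

/-- `N(σ, T)`: the number of zeros, counted with multiplicity -/
noncomputable def N (σ T : ℝ) : ℕ := ∑ᶠ ρ ∈ zeros σ T, mult ρ

lemma fin {σ T : ℝ} (h1 : 1 / 2 ≤ σ) (h2 : σ ≤ 1) (hT : 2 ≤ T) : (zeros σ T).Finite := by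
  obtain ⟨C, _, h⟩ := Pool.Agent.Y24.density (c := 1) (by norm_num)
  exact (h σ T h1 h2 hT).1

lemma N_eq {σ T : ℝ} (h : (zeros σ T).Finite) : (N σ T : ℝ) = ∑ ρ ∈ h.toFinset, (mult ρ : ℝ) := by
  unfold N
  rw [finsum_mem_eq_finite_toFinset_sum _ h]
  push_cast
  rfl

lemma N_le {c : ℝ} (hc : c < 4 / 3) : ∃ C : ℝ, 0 < C ∧ ∀ σ T : ℝ, 1 / 2 ≤ σ → σ ≤ 1 → 2 ≤ T →
    (N σ T : ℝ) ≤ C * T ^ (1 - c * (σ - 1 / 2)) * Real.log T := by
  obtain ⟨C, hC, h⟩ := Pool.Agent.Y24.density hc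
  refine ⟨C, hC, fun σ T h1 h2 hT => ?_⟩
  obtain ⟨h3, h4⟩ := h σ T h1 h2 hT
  rw [N_eq (show (zeros σ T).Finite from h3)]
  rw [finsum_mem_eq_finite_toFinset_sum _ h3] at h4
  exact h4

lemma re_lt {σ T : ℝ} {ρ : ℂ} (h : ρ ∈ zeros σ T) : ρ.re < 1 := by
  by_contra hcon
  exact riemannZeta_ne_zero_of_one_le_re (not_lt.1 hcon) h.1

/-- exponential moments, nonnegative exponents -/
lemma moment {c : ℝ} (hc0 : 0 ≤ c) (hc : c < 4 / 3) : ∃ C : ℝ, 0 < C ∧ ∀ T : ℝ, 2 ≤ T →
    ∑ᶠ ρ ∈ zeros (1 / 2) T, (mult ρ : ℝ) * T ^ (c * (ρ.re - 1 / 2)) ≤ C * (T * Real.log T) := by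
  obtain ⟨c', hcc', hc'⟩ := exists_between hc
  obtain ⟨C, hC, hN⟩ := N_le hc'
  have hr0 : (0:ℝ) < Real.exp (-(c' - c)) := Real.exp_pos _
  have hr1 : Real.exp (-(c' - c)) < 1 := by
    rw [Real.exp_lt_one_iff]
    linarith
  refine ⟨Real.exp c * (C * (1 - Real.exp (-(c' - c)))⁻¹), by
    have : 0 < 1 - Real.exp (-(c' - c)) := by linarith
    positivity, fun T hT => ?_⟩
  have hT0 : 0 < T := by linarith
  have hlog : 0 < Real.log T := Real.log_pos (by linarith)
  have hfin : (zeros (1 / 2) T).Finite := fin le_rfl (by norm_num) hT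
  rw [finsum_mem_eq_finite_toFinset_sum _ hfin]
  set K : ℕ := ⌊Real.log T / 2⌋₊ with hK
  have hKle : (K : ℝ) ≤ Real.log T / 2 := Nat.floor_le (by positivity)
  -- pointwise
  have hpt : ∀ ρ ∈ hfin.toFinset, (mult ρ : ℝ) * T ^ (c * (ρ.re - 1 / 2)) ≤
      ∑ j ∈ range (K + 1), Real.exp c * Real.exp (c * j) *
        (if 1 / 2 + j / Real.log T ≤ ρ.re then (mult ρ : ℝ) else 0) := by
    intro ρ hρ
    rw [Set.Finite.mem_toFinset] at hρ
    have hx0 : 0 ≤ (ρ.re - 1 / 2) * Real.log T := mul_nonneg (by linarith [hρ.2.1]) hlog.le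
    set k : ℕ := ⌊(ρ.re - 1 / 2) * Real.log T⌋₊ with hk
    have hk1 : (k : ℝ) ≤ (ρ.re - 1 / 2) * Real.log T := Nat.floor_le hx0
    have hk2 : (ρ.re - 1 / 2) * Real.log T < k + 1 := Nat.lt_floor_add_one _
    have hkK : k ≤ K := by
      apply Nat.floor_le_floor
      have := re_lt hρ
      nlinarith
    have hmem : k ∈ range (K + 1) := Finset.mem_range.2 (by omega)
    refine le_trans ?_ (Finset.single_le_sum (f := fun j : ℕ => Real.exp c * Real.exp (c * j) *
        (if 1 / 2 + j / Real.log T ≤ ρ.re then (mult ρ : ℝ) else 0)) (fun j _ => by positivity) hmem)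
    have hcond : 1 / 2 + (k : ℝ) / Real.log T ≤ ρ.re := by
      have : (k : ℝ) / Real.log T ≤ ρ.re - 1 / 2 := by
        rw [div_le_iff₀ hlog]
        exact hk1
      linarith
    simp only [if_pos hcond]
    rw [mul_comm]
    apply mul_le_mul_of_nonneg_right _ (Nat.cast_nonneg _)
    rw [Real.rpow_def_of_pos hT0, ← Real.exp_add]
    apply Real.exp_le_exp.2
    nlinarith
  calc ∑ ρ ∈ hfin.toFinset, (mult ρ : ℝ) * T ^ (c * (ρ.re - 1 / 2))
      ≤ ∑ ρ ∈ hfin.toFinset, ∑ j ∈ range (K + 1), Real.exp c * Real.exp (c * j) *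
        (if 1 / 2 + j / Real.log T ≤ ρ.re then (mult ρ : ℝ) else 0) := Finset.sum_le_sum hpt
    _ = ∑ j ∈ range (K + 1), Real.exp c * Real.exp (c * j) * (N (1 / 2 + j / Real.log T) T : ℝ) := by
        rw [Finset.sum_comm]
        refine Finset.sum_congr rfl fun j hj => ?_
        rw [← Finset.mul_sum]
        congr 1
        have hj' : (j : ℝ) ≤ K := by exact_mod_cast Nat.lt_succ_iff.1 (Finset.mem_range.1 hj)
        have hs1 : 1 / 2 ≤ 1 / 2 + (j : ℝ) / Real.log T := by
          have : 0 ≤ (j : ℝ) / Real.log T := by positivity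
          linarith
        have hs2 : 1 / 2 + (j : ℝ) / Real.log T ≤ 1 := by
          have : (j : ℝ) / Real.log T ≤ 1 / 2 := by
            rw [div_le_iff₀ hlog]
            linarith
          linarith
        have hf := fin hs1 hs2 hT
        rw [N_eq hf, ← Finset.sum_filter]
        refine Finset.sum_congr ?_ fun _ _ => rfl
        ext ρ
        simp only [Finset.mem_filter, Set.Finite.mem_toFinset, zeros, Set.mem_ofPred_eq]
        constructor
        · rintro ⟨⟨h1, _, h3⟩, h4⟩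
          exact ⟨h1, h4, h3⟩
        · rintro ⟨h1, h2, h3⟩
          exact ⟨⟨h1, hs1.trans h2, h3⟩, h2⟩
    _ ≤ ∑ j ∈ range (K + 1), Real.exp c * (C * (T * Real.log T)) * Real.exp (-(c' - c)) ^ j := by
        refine Finset.sum_le_sum fun j hj => ?_
        have hj' : (j : ℝ) ≤ K := by exact_mod_cast Nat.lt_succ_iff.1 (Finset.mem_range.1 hj)
        have hs1 : 1 / 2 ≤ 1 / 2 + (j : ℝ) / Real.log T := by
          have : 0 ≤ (j : ℝ) / Real.log T := by positivity
          linarith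
        have hs2 : 1 / 2 + (j : ℝ) / Real.log T ≤ 1 := by
          have : (j : ℝ) / Real.log T ≤ 1 / 2 := by
            rw [div_le_iff₀ hlog]
            linarith
          linarith
        have h1 := hN _ T hs1 hs2 hT
        have e1 : T ^ (1 - c' * (1 / 2 + (j : ℝ) / Real.log T - 1 / 2)) = T * Real.exp (-(c' * j)) := by
          rw [Real.rpow_def_of_pos hT0]
          rw [show Real.log T * (1 - c' * (1 / 2 + (j : ℝ) / Real.log T - 1 / 2)) =
            Real.log T + -(c' * j) by field_simp; ring]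
          rw [Real.exp_add, Real.exp_log hT0]
        rw [e1] at h1
        have e2 : Real.exp (-(c' - c)) ^ j = Real.exp (c * j) * Real.exp (-(c' * j)) := by
          rw [← Real.exp_nat_mul, ← Real.exp_add]
          congr 1
          ring
        rw [e2]
        have h2 := mul_le_mul_of_nonneg_left h1 (show 0 ≤ Real.exp c * Real.exp (c * j) by positivity)
        refine h2.trans (le_of_eq ?_)
        ring
    _ = Real.exp c * (C * (T * Real.log T)) * ∑ j ∈ range (K + 1), Real.exp (-(c' - c)) ^ j := by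
        rw [Finset.mul_sum]
    _ ≤ Real.exp c * (C * (T * Real.log T)) * (1 - Real.exp (-(c' - c)))⁻¹ := by
        apply mul_le_mul_of_nonneg_left _ (by positivity)
        have := hasSum_geometric_of_lt_one hr0.le hr1
        exact sum_le_hasSum _ (fun j _ => by positivity) this
    _ = _ := by ring

/-- **Zero density near the critical line, all exponents below `4/3`.** -/
theorem result (c : ℝ) (hc : c < 4 / 3) : ∃ C : ℝ, 0 < C ∧ ∀ T : ℝ, 2 ≤ T →
    (∀ σ : ℝ, 1 / 2 ≤ σ → σ ≤ 1 → (zeros σ T).Finite ∧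
      (N σ T : ℝ) ≤ C * T ^ (1 - c * (σ - 1 / 2)) * Real.log T) ∧
    ∑ᶠ ρ ∈ zeros (1 / 2) T, (mult ρ : ℝ) * T ^ (c * (ρ.re - 1 / 2)) ≤ C * (T * Real.log T) := by
  obtain ⟨C₁, hC₁, h1⟩ := N_le hc
  obtain ⟨C₂, hC₂, h2⟩ := moment (c := max c 0) (le_max_right _ _) (max_lt hc (by norm_num))
  refine ⟨C₁ + C₂, by positivity, fun T hT => ⟨fun σ hs1 hs2 => ⟨fin hs1 hs2 hT, ?_⟩, ?_⟩⟩
  · have hT0 : 0 < T := by linarith
    have hlog : 0 < Real.log T := Real.log_pos (by linarith)
    refine (h1 σ T hs1 hs2 hT).trans ?_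
    have : 0 ≤ C₂ * T ^ (1 - c * (σ - 1 / 2)) * Real.log T := by positivity
    nlinarith
  · have hT0 : 0 < T := by linarith
    have hlog : 0 < Real.log T := Real.log_pos (by linarith)
    have hfin : (zeros (1 / 2) T).Finite := fin le_rfl (by norm_num) hT
    have h3 := h2 T hT
    rw [finsum_mem_eq_finite_toFinset_sum _ hfin] at h3 ⊢
    refine le_trans (Finset.sum_le_sum fun ρ hρ => ?_) (h3.trans ?_)
    · rw [Set.Finite.mem_toFinset] at hρ
      apply mul_le_mul_of_nonneg_left _ (Nat.cast_nonneg _)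
      apply Real.rpow_le_rpow_of_exponent_le (by linarith)
      exact mul_le_mul_of_nonneg_right (le_max_left _ _) (by linarith [hρ.2.1])
    · have : 0 ≤ C₁ * (T * Real.log T) := by positivity
      nlinarith

end Pool.Agent.Results.MP_5a4862_nt.DensityNearCriticalLine
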