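import Pool.Agent.L5helper6.DZ.Sym

/-!
# Zero-free half-planes and the zeros of the derivatives

Let `k ≥ 1`. Zeta has a zero-free half-plane `Re s ≥ σ₀`, `σ₀ < 1`, if and only if `ζ^(k)` has only
finitely many zeros with `|Im s| ≥ 1` in some half-plane `Re s < a`, `a > 0`, and if and only if
`ξ^(k)` has only finitely many zeros in some half-plane `Re s > σ`, `σ < 1`.  More precisely the
abscissas agree: for `1/2 ≤ b < 1`, all but finitely many zeros of zeta satisfy `Re s ≤ b + ε`, for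
every `ε > 0`, if and only if all but finitely many zeros of `ζ^(k)` with `|Im s| ≥ 1` satisfy
`Re s ≥ 1 - b - ε`, for every `ε > 0`; for `5/6 ≤ b < 1` this is equivalent to the statement that all
but finitely many zeros of `ξ^(k)` satisfy `Re s ≤ b + ε`, for every `ε > 0`.  And the zeros are
localised: if all but finitely many zeros of zeta satisfy `Re s ≤ b + ε` for every `ε > 0` (this is
true for `b = 1`), then near the lines `Re s = b` and `Re s = 1 - b` every zero of zeta of large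
height is close to a zero of `ξ^(k)`, `ζ^(k)`, and conversely.

Proof. Let `A(s)` be the factor with `ζ(1-s) = A(s) ζ(s)` or `ξ(s) = A(s) ζ(s)`, `w = A'/A`, and
`F_0 = ζ`, `F_(j+1) = F_j' + w F_j`, so that `(A ζ)^(k) = A F_k`.  Here `w(s) ~ a log |s|` with
`a = 1` or `a = 1/2`.  Where zeta has no zeros, to the right of a given line, `ζ'/ζ = o(log t)`, by
Borel–Carathéodory and the three circles theorem, and `F_k ~ (a log t)^k ζ`.  The same argument
works in a disc around a point of the line, and this gives one direction.  For the other one assume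
that `F_(j+1)` has no zeros in a disc of fixed radius around a point near the line.  Then
`F_(j+1)' / F_(j+1) = o(log t)` in a smaller disc.  If `F_j` has a zero `p` near the centre, then the
differential equation `(A F_j)' = A F_(j+1)` shows that `|F_j(p - d)| ≥ t^(a d - o(1))`; but zeta is
smaller than this: for `a = 1` by convexity, for `a = 1/2` and `b > 5/6` by the bound of Weyl, Hardy
and Littlewood for `ζ(1/2 + it)`.
-/

set_option autoImplicit false

open Complex Filter Topology Set Metric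

namespace Pool.Agent.Results.MP_5a4862_nt.ZerosOfDerivatives

open Pool.Agent.L5helper6.DZ (Free FreeS sq U1 U2 w1 w2 w1_mul w2_mul zero1 zero2 refl1 refl2
  finite_zeros iter_diffOn xi_diff abscissa chain conv right3 Gr_one Gr_half mem_ball_re_im)

/-- Riemann's xi function `ξ(s) = s (s - 1) π^(-s/2) Γ(s/2) ζ(s) / 2` (as an entire function) -/
noncomputable def xi (s : ℂ) : ℂ := (s * (s - 1) * completedRiemannZeta₀ s + 1) / 2

/-- zeta has a zero-free half-plane -/
def HalfPlane : Prop := ∃ σ₀ : ℝ, 1 / 2 < σ₀ ∧ σ₀ < 1 ∧ ∀ s : ℂ, σ₀ ≤ s.re → riemannZeta s ≠ 0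

/-- for every `ε > 0`, all but finitely many zeros of `f` satisfy `Re s ≤ b + ε` -/
def RightBound (f : ℂ → ℂ) (b : ℝ) : Prop := ∀ ε : ℝ, 0 < ε → {s : ℂ | f s = 0 ∧ b + ε < s.re}.Finite

/-- for every `ε > 0`, all but finitely many zeros of `f` with `|Im s| ≥ 1` satisfy
`Re s ≥ b - ε` -/
def LeftBound (f : ℂ → ℂ) (b : ℝ) : Prop :=
  ∀ ε : ℝ, 0 < ε → {s : ℂ | f s = 0 ∧ s.re < b - ε ∧ 1 ≤ |s.im|}.Finite

/-- for every `r > 0` there are `δ > 0` and `T` such that every zero `ρ` of `f` with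
`Re ρ ≥ b - δ` and `|Im ρ| ≥ T` has a zero of `g` at distance less than `r` -/
def CloseRight (f g : ℂ → ℂ) (b : ℝ) : Prop := ∀ r : ℝ, 0 < r → ∃ δ T : ℝ, 0 < δ ∧ ∀ ρ : ℂ,
  f ρ = 0 → b - δ ≤ ρ.re → T ≤ |ρ.im| → ∃ ρ' : ℂ, g ρ' = 0 ∧ ‖ρ' - ρ‖ < r

/-- for every `r > 0` there are `δ > 0` and `T` such that every zero `ρ` of `f` with
`Re ρ ≤ b + δ` and `|Im ρ| ≥ T` has a zero of `g` at distance less than `r` -/
def CloseLeft (f g : ℂ → ℂ) (b : ℝ) : Prop := ∀ r : ℝ, 0 < r → ∃ δ T : ℝ, 0 < δ ∧ ∀ ρ : ℂ,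
  f ρ = 0 → ρ.re ≤ b + δ → T ≤ |ρ.im| → ∃ ρ' : ℂ, g ρ' = 0 ∧ ‖ρ' - ρ‖ < r

lemma xi_same : xi = Pool.Agent.L5helper6.DZ.xi := rfl

/-- `xi` is `s (s - 1) / 2` times the completed zeta function -/
theorem xi_eq {s : ℂ} (h0 : 0 < s.re) (h1 : s ≠ 1) :
    xi s = s * (s - 1) / 2 * (Gammaℝ s * riemannZeta s) := by
  have hs : s ≠ 0 := by
    intro h
    rw [h, zero_re] at h0
    exact lt_irrefl _ h0
  rcases Pool.Agent.L5helper6.DZ.xi_eq hs h1 with h | h
  · exact h
  · exact absurd h (Gammaℝ_ne_zero_of_re_pos h0)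

/-! ### Zeta -/

lemma bdd_im {S : Set ℂ} (hS : S.Finite) : ∃ T : ℝ, ∀ s ∈ S, |s.im| ≤ T := by
  obtain ⟨M, hM⟩ := (hS.image fun s => |s.im|).bddAbove
  exact ⟨M, fun s hs => hM ⟨s, hs, rfl⟩⟩

lemma free_of_right {b : ℝ} (h : RightBound riemannZeta b) : Free b := by
  intro ε hε
  obtain ⟨T, hT⟩ := bdd_im (h (ε / 2) (half_pos hε))
  refine ⟨T + 1, fun s h1 h2 h3 => ?_⟩
  have := hT s ⟨h3, by linarith⟩
  have := le_abs_self s.im
  linarith

/-- finitely many zeros of zeta in a box to the right -/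
lemma box_zeta {σ T : ℝ} : {s : ℂ | riemannZeta s = 0 ∧ σ ≤ s.re ∧ |s.im| ≤ T}.Finite := by
  set f : ℂ → ℂ := Function.update (fun w : ℂ => (w - 1) * riemannZeta w) 1 1 with hf
  have hfd : Differentiable ℂ f := Pool.Agent.H448R2.GC.zeta_one_entire
  have hK : IsCompact (Icc σ 1 ×ℂ Icc (-T) T) := isCompact_Icc.reProdIm isCompact_Icc
  have hfin := finite_zeros (f := f) isOpen_univ isPreconnected_univ hfd.differentiableOn hK
    (subset_univ _) ⟨1, mem_univ _, by simp [hf]⟩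
  refine hfin.subset ?_
  rintro s ⟨h1, h2, h3⟩
  have hre : s.re ≤ 1 := by
    by_contra h
    rw [not_le] at h
    exact riemannZeta_ne_zero_of_one_le_re h.le h1
  refine ⟨⟨⟨h2, hre⟩, abs_le.1 h3⟩, ?_⟩
  have hne : s ≠ 1 := by
    intro h
    rw [h] at h1
    exact riemannZeta_ne_zero_of_one_le_re (s := 1) (by simp) h1
  rw [hf, Function.update_of_ne hne, h1, mul_zero]

lemma right_of_free {b : ℝ} (h : Free b) : RightBound riemannZeta b := by
  intro ε hε
  obtain ⟨T, hT⟩ := h ε hε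
  refine (box_zeta (σ := b + ε) (T := T)).subset ?_
  rintro s ⟨h1, h2⟩
  refine ⟨h1, h2.le, ?_⟩
  by_contra h3
  rw [not_le] at h3
  obtain ⟨φ, g1, g2, g3, g4, g5, g6, g7⟩ := refl2 s
  exact hT (φ s) (by rw [g2]; exact h2.le) (by rw [g1]; exact h3.le) ((g7 s).2 h1)

/-! ### The derivatives of zeta -/

lemma mem_U1 {s : ℂ} (h1 : 1 / 4 < s.re) (h2 : 1 / 2 < s.im) : s ∈ U1 := ⟨h1, h2⟩

lemma leftBound_iff {b : ℝ} (hb0 : 1 / 2 ≤ b) (k : ℕ) :
    LeftBound (iteratedDeriv k riemannZeta) (1 - b) ↔ FreeS w1 k b := by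
  constructor
  · intro h ε hε
    obtain ⟨T, hT⟩ := bdd_im (h (ε / 2) (half_pos hε))
    refine ⟨max (T + 1) 1, fun p h1 h2 h3 => ?_⟩
    have k1 : T + 1 ≤ p.im := (le_max_left _ _).trans h2
    have k2 : 1 ≤ p.im := (le_max_right _ _).trans h2
    have h4 := (zero1 k (mem_U1 (by linarith) (by linarith))).2 h3
    have h5 : (1 - p).re = 1 - p.re := by simp
    have h6 : |(1 - p).im| = p.im := by
      have : (1 - p).im = -p.im := by simp
      rw [this, abs_neg, abs_of_nonneg (by linarith)]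
    have := hT (1 - p) ⟨h4, by rw [h5]; linarith, by rw [h6]; exact k2⟩
    rw [h6] at this
    linarith
  · intro h ε hε
    obtain ⟨T, hT⟩ := h ε hε
    obtain ⟨R, hR⟩ := right3 w1_mul k
    -- a bounded region
    set B : ℝ := max (5 / 4) R with hB
    have hK : IsCompact (Icc (1 - B) (1 / 2) ×ℂ Icc (-T) T) := isCompact_Icc.reProdIm isCompact_Icc
    have hne : ∃ z ∈ ({1}ᶜ : Set ℂ), iteratedDeriv k riemannZeta z ≠ 0 := by
      set p : ℂ := ⟨B, 2⟩ with hp
      refine ⟨1 - p, ?_, ?_⟩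
      · intro h
        have := congrArg im h
        simp [hp] at this
      · intro h
        have hpU : p ∈ U1 := mem_U1 (by
          show (1 / 4 : ℝ) < B
          have := le_max_left (5 / 4) R
          linarith) (by show (1 / 2 : ℝ) < 2; norm_num)
        refine hR p (le_max_left _ _) ?_ ?_ ((zero1 k hpU).1 h)
        · intro z hz
          obtain ⟨q1, q2, q3, q4, q5⟩ := mem_ball_re_im hz
          have e1 : p.re = B := rfl
          have e2 : p.im = 2 := rfl
          rw [e1] at q1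
          rw [e2] at q3
          have := le_max_left (5 / 4) R
          exact mem_U1 (by linarith) (by linarith)
        · have e1 : p.re = B := rfl
          have := (le_abs_self p.re).trans (abs_re_le_norm p)
          rw [e1] at this
          exact (le_max_right _ _).trans this
    have hfin := finite_zeros (f := iteratedDeriv k riemannZeta) isOpen_compl_singleton
      (isConnected_compl_singleton_of_one_lt_rank (by
        rw [Complex.rank_real_complex]
        norm_num) (1 : ℂ)).isPreconnected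
      (iter_diffOn isOpen_compl_singleton (fun z hz =>
        (differentiableAt_riemannZeta hz).differentiableWithinAt) k) hK
      (by
        intro z hz h
        rw [mem_singleton_iff] at h
        have h1 : z.re ≤ 1 / 2 := hz.1.2
        rw [h, one_re] at h1
        norm_num at h1) hne
    refine hfin.subset ?_
    rintro s ⟨h1, h2, h3⟩
    refine ⟨?_, h1⟩
    obtain ⟨φ, g1, g2, g3, g4, g5, g6⟩ := refl1 s
    have hU : φ s ∈ U1 := mem_U1 (by rw [g2]; linarith) (by rw [g1]; linarith)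
    have hz : sq w1 riemannZeta k (φ s) = 0 := by
      rw [← zero1 k hU, ← g6, g4]
      exact h1
    refine ⟨⟨?_, by linarith⟩, abs_le.1 ?_⟩
    · by_contra hcon
      rw [not_le] at hcon
      have h4 : B < (φ s).re := by rw [g2]; linarith
      have h5 : 5 / 4 ≤ B := le_max_left _ _
      refine hR (φ s) (by linarith) ?_ ?_ hz
      · intro z hz
        obtain ⟨q1, q2, q3, q4, q5⟩ := mem_ball_re_im hz
        rw [g1] at q3
        exact mem_U1 (by linarith) (by linarith)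
      · exact ((le_max_right _ _).trans h4.le).trans ((le_abs_self _).trans (abs_re_le_norm _))
    · by_contra hcon
      rw [not_le] at hcon
      exact hT (φ s) (by rw [g2]; linarith) (by rw [g1]; exact hcon.le) hz

lemma gr1 {b : ℝ} (hb : 1 / 2 ≤ b) (b' : ℝ) (h : b < b') (h1 : b' ≤ 1) (hf : Free b') :
    ∃ κ : ℝ, 0 ≤ κ ∧ κ < 1 ∧ Pool.Agent.L5helper6.DZ.Gr κ b' :=
  Gr_one (by linarith) h1 hf

lemma abs1 {b : ℝ} (hb0 : 1 / 2 ≤ b) (hb1 : b ≤ 1) (k : ℕ) :
    RightBound riemannZeta b ↔ LeftBound (iteratedDeriv k riemannZeta) (1 - b) := by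
  rw [leftBound_iff hb0 k, ← abscissa w1_mul (by linarith) hb0 hb1 (gr1 hb0) k]
  exact ⟨free_of_right, right_of_free⟩

lemma close1 {b : ℝ} (hb0 : 1 / 2 < b) (hb1 : b ≤ 1) (hr : RightBound riemannZeta b) (k : ℕ) :
    CloseLeft riemannZeta (iteratedDeriv k riemannZeta) (1 - b) ∧
      CloseLeft (iteratedDeriv k riemannZeta) riemannZeta (1 - b) := by
  have hf := free_of_right hr
  obtain ⟨κ, hκ0, hκ1, hG⟩ := Gr_one hb0 hb1 hf
  constructor
  · intro r hr
    obtain ⟨δ, T, hδ, H⟩ := chain w1_mul (by linarith) hb0.le hb1 hf hκ0 hκ1 hG k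
      (r := min r (1 / 16)) (lt_min hr (by norm_num))
    refine ⟨min δ (1 / 16), max T 1, lt_min hδ (by norm_num), fun ρ h1 h2 h3 => ?_⟩
    have m1 : min δ (1 / 16) ≤ δ := min_le_left _ _
    have m2 : min δ (1 / 16 : ℝ) ≤ 1 / 16 := min_le_right _ _
    have m3 : T ≤ |ρ.im| := (le_max_left _ _).trans h3
    have m4 : 1 ≤ |ρ.im| := (le_max_right _ _).trans h3
    have m5 : min r (1 / 16 : ℝ) ≤ 1 / 16 := min_le_right _ _
    obtain ⟨φ, g1, g2, g3, g4, g5, g6⟩ := refl1 ρ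
    have hU : φ ρ ∈ U1 := mem_U1 (by rw [g2]; linarith) (by rw [g1]; linarith)
    have hz : riemannZeta (φ ρ) = 0 := by
      have h5 := zero1 0 hU
      rw [← g6 0 (φ ρ), g4, iteratedDeriv_zero] at h5
      exact h5.1 h1
    obtain ⟨q, hq, hq0⟩ := H (φ ρ) (by rw [g2]; linarith) (by rw [g1]; exact m3) hz
    obtain ⟨q1, q2, q3, q4, q5⟩ := mem_ball_re_im hq
    rw [g2] at q1
    rw [g1] at q3
    refine ⟨φ q, ?_, ?_⟩
    · rw [g6, zero1 k (mem_U1 (by linarith) (by linarith))]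
      exact hq0
    · have h6 := g5 q (φ ρ)
      rw [g4] at h6
      rw [h6]
      exact q5.trans_le (min_le_left _ _)
  · intro r hr
    obtain ⟨δ, T, hδ, H⟩ := conv w1_mul (by linarith) hb0.le hb1 hf k
      (r := min r (1 / 16)) (lt_min hr (by norm_num))
    refine ⟨min δ (1 / 16), max T 1, lt_min hδ (by norm_num), fun ρ h1 h2 h3 => ?_⟩
    have m1 : min δ (1 / 16) ≤ δ := min_le_left _ _
    have m2 : min δ (1 / 16 : ℝ) ≤ 1 / 16 := min_le_right _ _
    have m3 : T ≤ |ρ.im| := (le_max_left _ _).trans h3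
    have m4 : 1 ≤ |ρ.im| := (le_max_right _ _).trans h3
    have m5 : min r (1 / 16 : ℝ) ≤ 1 / 16 := min_le_right _ _
    obtain ⟨φ, g1, g2, g3, g4, g5, g6⟩ := refl1 ρ
    have hU : φ ρ ∈ U1 := mem_U1 (by rw [g2]; linarith) (by rw [g1]; linarith)
    have hz : sq w1 riemannZeta k (φ ρ) = 0 := by
      rw [← zero1 k hU, ← g6, g4]
      exact h1
    obtain ⟨q, hq, hq0⟩ := H (φ ρ) (by rw [g2]; linarith) (by rw [g1]; exact m3) hz
    obtain ⟨q1, q2, q3, q4, q5⟩ := mem_ball_re_im hq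
    rw [g2] at q1
    rw [g1] at q3
    refine ⟨φ q, ?_, ?_⟩
    · have h5 := zero1 0 (mem_U1 (s := q) (by linarith) (by linarith))
      rw [← g6 0 q, iteratedDeriv_zero] at h5
      exact h5.2 hq0
    · have h6 := g5 q (φ ρ)
      rw [g4] at h6
      rw [h6]
      exact q5.trans_le (min_le_left _ _)

/-! ### The derivatives of xi -/

lemma rightBound_iff {b : ℝ} (hb0 : 1 / 2 ≤ b) (k : ℕ) :
    RightBound (iteratedDeriv k xi) b ↔ FreeS w2 k b := by
  constructor
  · intro h ε hε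
    obtain ⟨T, hT⟩ := bdd_im (h (ε / 2) (half_pos hε))
    refine ⟨max (T + 1) 1, fun p h1 h2 h3 => ?_⟩
    have k1 : T + 1 ≤ p.im := (le_max_left _ _).trans h2
    have k2 : 1 ≤ p.im := (le_max_right _ _).trans h2
    have h4 := (zero2 k (Or.inl ⟨by linarith, by linarith⟩ : p ∈ U2)).2 h3
    have := hT p ⟨h4, by linarith⟩
    have := le_abs_self p.im
    linarith
  · intro h ε hε
    obtain ⟨T, hT⟩ := h ε hε
    obtain ⟨R, hR⟩ := right3 w2_mul k
    set B : ℝ := max (5 / 4) R with hB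
    have hU : ∀ z : ℂ, 9 / 8 < z.re → z ∈ U2 := fun z hz => Or.inr hz
    have hbig : ∀ z : ℂ, B ≤ z.re → iteratedDeriv k xi z ≠ 0 := by
      intro z hz h0
      have h5 : 5 / 4 ≤ B := le_max_left _ _
      refine hR z (by linarith) ?_ ?_ ((zero2 k (hU z (by linarith))).1 h0)
      · intro y hy
        obtain ⟨q1, q2, q3, q4, q5⟩ := mem_ball_re_im hy
        exact hU y (by linarith)
      · exact ((le_max_right _ _).trans hz).trans ((le_abs_self _).trans (abs_re_le_norm _))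
    have hK : IsCompact (Icc (b + ε) B ×ℂ Icc (-(max T 1)) (max T 1)) :=
      isCompact_Icc.reProdIm isCompact_Icc
    have hfin := finite_zeros (f := iteratedDeriv k xi) isOpen_univ isPreconnected_univ
      (iter_diffOn isOpen_univ xi_diff.differentiableOn k) hK (subset_univ _)
      ⟨(B : ℂ), mem_univ _, hbig _ (by rw [ofReal_re])⟩
    refine hfin.subset ?_
    rintro s ⟨h1, h2⟩
    refine ⟨⟨⟨h2.le, ?_⟩, abs_le.1 ?_⟩, h1⟩
    · by_contra hcon
      rw [not_le] at hcon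
      exact hbig s hcon.le h1
    · by_contra hcon
      rw [not_le] at hcon
      obtain ⟨φ, g1, g2, g3, g4, g5, g6, g7⟩ := refl2 s
      have hT0 : T ≤ (φ s).im := by rw [g1]; exact (le_max_left _ _).trans hcon.le
      have hT1 : 1 ≤ (φ s).im := by rw [g1]; exact (le_max_right _ _).trans hcon.le
      have hre : b + ε ≤ (φ s).re := by rw [g2]; exact h2.le
      have hz : iteratedDeriv k xi (φ s) = 0 := (g6 k s).2 h1
      exact hT (φ s) hre hT0 ((zero2 k (Or.inl ⟨by linarith, by linarith⟩)).1 hz)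

lemma gr2 {b : ℝ} (hb : 5 / 6 ≤ b) (b' : ℝ) (h : b < b') (h1 : b' ≤ 1) (hf : Free b') :
    ∃ κ : ℝ, 0 ≤ κ ∧ κ < 1 / 2 ∧ Pool.Agent.L5helper6.DZ.Gr κ b' :=
  Gr_half (by linarith) h1 hf

lemma abs2 {b : ℝ} (hb0 : 5 / 6 ≤ b) (hb1 : b ≤ 1) (k : ℕ) :
    RightBound riemannZeta b ↔ RightBound (iteratedDeriv k xi) b := by
  rw [rightBound_iff (by linarith) k, ← abscissa w2_mul (by linarith) (by linarith) hb1 (gr2 hb0) k]
  exact ⟨free_of_right, right_of_free⟩

lemma close2 {b : ℝ} (hb0 : 5 / 6 < b) (hb1 : b ≤ 1) (hr : RightBound riemannZeta b) (k : ℕ) :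
    CloseRight riemannZeta (iteratedDeriv k xi) b ∧ CloseRight (iteratedDeriv k xi) riemannZeta b := by
  have hf := free_of_right hr
  obtain ⟨κ, hκ0, hκ1, hG⟩ := Gr_half hb0 hb1 hf
  constructor
  · intro r hr
    obtain ⟨δ, T, hδ, H⟩ := chain w2_mul (by linarith) (by linarith) hb1 hf hκ0 hκ1 hG k
      (r := min r (1 / 16)) (lt_min hr (by norm_num))
    refine ⟨min δ (1 / 16), max T 1, lt_min hδ (by norm_num), fun ρ h1 h2 h3 => ?_⟩
    have m1 : min δ (1 / 16) ≤ δ := min_le_left _ _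
    have m2 : min δ (1 / 16 : ℝ) ≤ 1 / 16 := min_le_right _ _
    have m3 : T ≤ |ρ.im| := (le_max_left _ _).trans h3
    have m4 : 1 ≤ |ρ.im| := (le_max_right _ _).trans h3
    have m5 : min r (1 / 16 : ℝ) ≤ 1 / 16 := min_le_right _ _
    obtain ⟨φ, g1, g2, g3, g4, g5, g6, g7⟩ := refl2 ρ
    obtain ⟨q, hq, hq0⟩ := H (φ ρ) (by rw [g2]; linarith) (by rw [g1]; exact m3) ((g7 ρ).2 h1)
    obtain ⟨q1, q2, q3, q4, q5⟩ := mem_ball_re_im hq
    rw [g2] at q1
    rw [g1] at q3
    refine ⟨φ q, ?_, ?_⟩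
    · exact (g6 k q).2 ((zero2 k (Or.inl ⟨by linarith, by linarith⟩ : q ∈ U2)).2 hq0)
    · have h6 := g5 q (φ ρ)
      rw [g4] at h6
      rw [h6]
      exact q5.trans_le (min_le_left _ _)
  · intro r hr
    obtain ⟨δ, T, hδ, H⟩ := conv w2_mul (by linarith) (by linarith) hb1 hf k
      (r := min r (1 / 16)) (lt_min hr (by norm_num))
    refine ⟨min δ (1 / 16), max T 1, lt_min hδ (by norm_num), fun ρ h1 h2 h3 => ?_⟩
    have m1 : min δ (1 / 16) ≤ δ := min_le_left _ _
    have m2 : min δ (1 / 16 : ℝ) ≤ 1 / 16 := min_le_right _ _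
    have m3 : T ≤ |ρ.im| := (le_max_left _ _).trans h3
    have m4 : 1 ≤ |ρ.im| := (le_max_right _ _).trans h3
    have m5 : min r (1 / 16 : ℝ) ≤ 1 / 16 := min_le_right _ _
    obtain ⟨φ, g1, g2, g3, g4, g5, g6, g7⟩ := refl2 ρ
    have hU : φ ρ ∈ U2 := Or.inl ⟨by rw [g2]; linarith, by rw [g1]; linarith⟩
    obtain ⟨q, hq, hq0⟩ := H (φ ρ) (by rw [g2]; linarith) (by rw [g1]; exact m3)
      ((zero2 k hU).1 ((g6 k ρ).2 h1))
    obtain ⟨q1, q2, q3, q4, q5⟩ := mem_ball_re_im hq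
    refine ⟨φ q, (g7 q).2 hq0, ?_⟩
    have h6 := g5 q (φ ρ)
    rw [g4] at h6
    rw [h6]
    exact q5.trans_le (min_le_left _ _)

/-! ### Half-planes -/

lemma right_mono {f : ℂ → ℂ} {b b' : ℝ} (h : b ≤ b') (hr : RightBound f b) : RightBound f b' :=
  fun ε hε => (hr ε hε).subset fun s hs => ⟨hs.1, by linarith [hs.2]⟩

lemma right_of_half {σ₀ : ℝ} (h : ∀ s : ℂ, σ₀ ≤ s.re → riemannZeta s ≠ 0) :
    RightBound riemannZeta σ₀ := by
  intro ε hε
  have : {s : ℂ | riemannZeta s = 0 ∧ σ₀ + ε < s.re} = ∅ := by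
    ext s
    simp only [mem_ofPred_eq, mem_empty_iff_false, iff_false]
    rintro ⟨h1, h2⟩
    exact h s (by linarith) h1
  rw [this]
  exact finite_empty

lemma half_of_right {b : ℝ} (h0 : 1 / 2 ≤ b) (h1 : b < 1) (h : RightBound riemannZeta b) :
    HalfPlane := by
  have hS := h ((1 - b) / 2) (by linarith)
  obtain ⟨σ1, hσ1, hσ2, hσ3⟩ : ∃ σ1 : ℝ, b + (1 - b) / 2 ≤ σ1 ∧ σ1 < 1 ∧
      ∀ s : ℂ, riemannZeta s = 0 → b + (1 - b) / 2 < s.re → s.re ≤ σ1 := by
    rcases eq_empty_or_nonempty {s : ℂ | riemannZeta s = 0 ∧ b + (1 - b) / 2 < s.re} with he | hne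
    · refine ⟨b + (1 - b) / 2, le_rfl, by linarith, fun s g1 g2 => ?_⟩
      have : s ∈ {s : ℂ | riemannZeta s = 0 ∧ b + (1 - b) / 2 < s.re} := ⟨g1, g2⟩
      rw [he] at this
      exact absurd this (notMem_empty _)
    · obtain ⟨m, hm, hmax⟩ := exists_max_image _ (fun s : ℂ => s.re) hS hne
      refine ⟨m.re, hm.2.le, ?_, fun s g1 g2 => hmax s ⟨g1, g2⟩⟩
      by_contra hcon
      rw [not_lt] at hcon
      exact riemannZeta_ne_zero_of_one_le_re hcon hm.1
  refine ⟨(σ1 + 1) / 2, by linarith, by linarith, fun s g1 g2 => ?_⟩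
  have := hσ3 s g2 (by linarith)
  linarith

/-- **Theorem.** Let `k ≥ 0`.
(1) Zeta has a zero-free half-plane `Re s ≥ σ₀`, `1/2 < σ₀ < 1`, if and only if for some `a > 0`
the function `ζ^(k)` has only finitely many zeros with `Re s < a` and `|Im s| ≥ 1`.
(2) It has one if and only if for some `σ < 1` the function `ξ^(k)` has only finitely many zeros
with `Re s > σ`.
(3), (4) The abscissas agree.
(5), (6) Localisation of the zeros near the line of the last zeros; for `b = 1` the assumption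
`RightBound riemannZeta b` is fulfilled. -/
theorem result : RightBound riemannZeta 1 ∧ ∀ k : ℕ,
    (HalfPlane ↔ ∃ a : ℝ, 0 < a ∧
      {s : ℂ | iteratedDeriv k riemannZeta s = 0 ∧ s.re < a ∧ 1 ≤ |s.im|}.Finite) ∧
    (HalfPlane ↔ ∃ σ : ℝ, σ < 1 ∧ {s : ℂ | iteratedDeriv k xi s = 0 ∧ σ < s.re}.Finite) ∧
    (∀ b : ℝ, 1 / 2 ≤ b → b ≤ 1 →
      (RightBound riemannZeta b ↔ LeftBound (iteratedDeriv k riemannZeta) (1 - b))) ∧
    (∀ b : ℝ, 5 / 6 ≤ b → b ≤ 1 →
      (RightBound riemannZeta b ↔ RightBound (iteratedDeriv k xi) b)) ∧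
    (∀ b : ℝ, 1 / 2 < b → b ≤ 1 → RightBound riemannZeta b →
      CloseLeft riemannZeta (iteratedDeriv k riemannZeta) (1 - b) ∧
      CloseLeft (iteratedDeriv k riemannZeta) riemannZeta (1 - b)) ∧
    (∀ b : ℝ, 5 / 6 < b → b ≤ 1 → RightBound riemannZeta b →
      CloseRight riemannZeta (iteratedDeriv k xi) b ∧
      CloseRight (iteratedDeriv k xi) riemannZeta b) := by
  refine ⟨right_of_half fun s hs => riemannZeta_ne_zero_of_one_le_re hs, fun k =>
    ⟨⟨?_, ?_⟩, ⟨?_, ?_⟩, fun b h0 h1 => abs1 h0 h1 k, fun b h0 h1 => abs2 h0 h1 k,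
      fun b h0 h1 hr => close1 h0 h1 hr k, fun b h0 h1 hr => close2 h0 h1 hr k⟩⟩
  · rintro ⟨σ₀, h0, h1, h⟩
    have h2 := (abs1 h0.le h1.le k).1 (right_of_half h) ((1 - σ₀) / 2) (by linarith)
    refine ⟨(1 - σ₀) / 2, by linarith, h2.subset ?_⟩
    rintro s ⟨g1, g2, g3⟩
    exact ⟨g1, by linarith, g3⟩
  · rintro ⟨a, ha, hfin⟩
    set b : ℝ := max (1 - a) (1 / 2) with hb
    have hb1 : b < 1 := max_lt (by linarith) (by norm_num)
    have hb2 : 1 / 2 ≤ b := le_max_right _ _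
    refine half_of_right hb2 hb1 ((abs1 hb2 hb1.le k).2 fun ε hε => hfin.subset ?_)
    rintro s ⟨g1, g2, g3⟩
    refine ⟨g1, ?_, g3⟩
    have := le_max_left (1 - a) (1 / 2)
    linarith
  · rintro ⟨σ₀, h0, h1, h⟩
    set b : ℝ := max σ₀ (5 / 6) with hb
    have hb1 : b < 1 := max_lt h1 (by norm_num)
    have h2 := (abs2 (le_max_right _ _) hb1.le k).1 (right_mono (le_max_left _ _) (right_of_half h))
      ((1 - b) / 2) (by linarith)
    exact ⟨b + (1 - b) / 2, by linarith, h2⟩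
  · rintro ⟨σ, hσ, hfin⟩
    set b : ℝ := max σ (5 / 6) with hb
    have hb1 : b < 1 := max_lt hσ (by norm_num)
    have hb2 : 5 / 6 ≤ b := le_max_right _ _
    refine half_of_right (by linarith) hb1 ((abs2 hb2 hb1.le k).2 fun ε hε => hfin.subset ?_)
    rintro s ⟨g1, g2⟩
    refine ⟨g1, ?_⟩
    have := le_max_left σ (5 / 6)
    linarith

end Pool.Agent.Results.MP_5a4862_nt.ZerosOfDerivatives
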